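import Pool.Agent.H7.HD.Targets11
import Pool.Agent.H7.HD.All

/-!
# (CVR) a definable covering family of atoms (MP_e37c09_lc)
-/

open Ordinal Cardinal Order Set
open scoped ZFSet

universe u

namespace Pool.Agent.H63.HDA.CVR

open _root_.HD

theorem posDiff {κ : Ordinal.{u}} {P : Set Ordinal.{u} → Prop} (hP : PO κ P)
    (hκ : ℵ₀ < κ.cof) {X Y : Set Ordinal.{u}} (hX : P X) (hY : ¬ P Y) : P (X \ Y) := by
  by_contra h
  classical
  refine hP.add 2 ?_ (fun i => if i = 0 then X \ Y else Y) ?_ ?_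
  · refine lt_trans ?_ hκ
    have h2 : (2 : Ordinal.{u}).card < ℵ₀ := by
      have : (2 : Ordinal.{u}) = ((2 : ℕ) : Ordinal.{u}) := by norm_num
      rw [this, Ordinal.card_nat]
      exact Cardinal.natCast_lt_aleph0
    exact h2
  · intro i _
    by_cases hi : i = 0
    · simpa [hi] using h
    · simpa [hi] using hY
  · refine hP.mono _ _ hX fun b _ hb => ?_
    by_cases hbY : b ∈ Y
    · exact ⟨1, by norm_num, by simpa using hbY⟩
    · exact ⟨0, by norm_num, by simpa using ⟨hb, hbY⟩⟩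

theorem X : T_CVR.{u} := by
  intro en hen G κ P hP hG hG0 hGκ hNS hat
  have hE := (All.ea en hen).1
  have hcof0 : ℵ₀ < κ.cof := hG0.trans hGκ
  -- definability of positivity
  have dP1 : ∀ i : ℕ, DO fun w => P (E en (w i)) := fun i =>
    hP.dfn (fun a w => a ∈ E en (w i)) (hE.s2 (X := fun x y => x ∈ E en y) 0 (i + 1))
  have dP2 : ∀ i k : ℕ, DO fun w => P (E en (w i) ∩ E en (w k)) := fun i k =>
    hP.dfn (fun a w => a ∈ E en (w i) ∧ a ∈ E en (w k))
      ((hE.s2 (X := fun x y => x ∈ E en y) 0 (i + 1)).and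
        (hE.s2 (X := fun x y => x ∈ E en y) 0 (k + 1)))
  have dP3 : ∀ i k : ℕ, DO fun w => P (E en (w i) \ E en (w k)) := fun i k =>
    hP.dfn (fun a w => a ∈ E en (w i) ∧ ¬ a ∈ E en (w k))
      ((hE.s2 (X := fun x y => x ∈ E en y) 0 (i + 1)).and
        (hE.s2 (X := fun x y => x ∈ E en y) 0 (k + 1)).not)
  have dAt : DO fun w => AtP en P (w 0) := by
    refine (dP1 0).and (DO.all (R := fun x w =>
      ¬ (P (E en (w 0) ∩ E en x) ∧ P (E en (w 0) \ E en x))) ?_)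
    exact ((dP2 1 0).and (dP3 1 0)).not
  set A : Set Ordinal.{u} := {c | AtP en P c ∧ ∀ c' < c, AtP en P c' → ¬ P (E en c ∩ E en c')}
    with hA
  have hAds : DS A := by
    refine dAt.and (DO.allLt (R := fun x w => AtP en P x → ¬ P (E en (w 0) ∩ E en x)) 0 ?_)
    exact dAt.imp (dP2 1 0).not
  have hnull : ∀ c ∈ A, ∀ c' ∈ A, c' < c → ¬ P (E en c ∩ E en c') :=
    fun c hc c' hc' hlt => hc.2 c' hlt hc'.1
  have hfew : Few G.ord A := by
    by_contra hnf
    have h4 := ((All.vh A).2.2.2 G.ord).resolve_left hnf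
    have h2 := (All.vh A).2.1
    let s : Ordinal.{u} → Ordinal.{u} → Prop := fun b i => ∃ c, nth A i c ∧ b ∈ E en c ∧
      ∀ c' < c, c' ∈ A → b ∉ E en c'
    have h5 : DO fun w => nth A (w 0) (w 1) := All.db (fun a _ => a ∈ A) hAds
    have hsdr : DR s := by
      refine DO.ex (R := fun c w => nth A (w 1) c ∧ w 0 ∈ E en c ∧
        ∀ c' < c, c' ∈ A → w 0 ∉ E en c') ?_
      refine (h5.s2 (X := fun x y => nth A x y) 2 0).and
        ((hE.s2 (X := fun x y => x ∈ E en y) 1 0).and (DO.allLt (R := fun c' w =>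
          c' ∈ A → w 1 ∉ E en c') 0 ?_))
      exact (hAds.s1 (X := fun x => x ∈ A) 0).imp (hE.s2 (X := fun x y => x ∈ E en y) 2 0).not
    refine hNS s hsdr ?_ ?_
    · rintro b i i' ⟨c, hc, h1, h1'⟩ ⟨d, hd, h3, h3'⟩
      have hcd : c = d := by
        rcases lt_trichotomy c d with h | h | h
        · exact absurd h1 (h3' c h hc.1)
        · exact h
        · exact absurd h3 (h1' d h hd.1)
      subst hcd
      apply le_antisymm
      · by_contra hlt
        push Not at hlt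
        exact lt_irrefl _ ((h2 i' i _ _ hd hc).1 hlt)
      · by_contra hlt
        push Not at hlt
        exact lt_irrefl _ ((h2 i i' _ _ hc hd).1 hlt)
    · intro i hi
      obtain ⟨c, hc⟩ := h4 i hi
      obtain ⟨hcA, g, hg1, hg2, hg3⟩ := hc
      have hicard : i.card < κ.cof := (Cardinal.lt_ord.1 hi).trans hGκ
      have h6 := hP.add i hicard (fun j => E en c ∩ E en (g j))
        (fun j hj => hnull c hcA (g j) (hg2 j hj).1 (hg2 j hj).2)
      refine hP.mono _ _ (posDiff hP hcof0 hcA.1.1 h6) fun b _ hb => ?_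
      refine ⟨c, ⟨hcA, g, hg1, hg2, hg3⟩, hb.1, fun c' hc' hc'A hbc' => ?_⟩
      obtain ⟨j, hj, rfl⟩ := hg3 c' hc'A hc'
      exact hb.2 ⟨j, hj, hb.1, hbc'⟩
  refine ⟨A, hAds, hfew, fun c hc => hc.1, fun hNpos => ?_⟩
  have hNds : DS {b | ∀ c ∈ A, b ∉ E en c} := DO.all (R := fun c w => c ∈ A → w 0 ∉ E en c)
    ((hAds.s1 (X := fun x => x ∈ A) 0).imp (hE.s2 (X := fun x y => x ∈ E en y) 1 0).not)
  obtain ⟨c1, hc1N, hc1⟩ := hat _ hNds hNpos
  have hex : ∃ c, AtP en P c ∧ P (E en c ∩ E en c1) :=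
    ⟨c1, hc1, by rw [inter_self]; exact hc1.1⟩
  obtain ⟨c, ⟨hc, hcp⟩, hmin⟩ := WellFounded.has_min (r := ((· < ·) : Ordinal.{u} → _ → Prop))
    Ordinal.lt_wf {c | AtP en P c ∧ P (E en c ∩ E en c1)} hex
  have hcA : c ∈ A := by
    refine ⟨hc, fun c' hc' hat' hpos' => ?_⟩
    have h1 : ¬ P (E en c \ E en c') := fun h => hc.2 c' ⟨hpos', h⟩
    refine hmin c' ⟨hat', ?_⟩ hc'
    refine hP.mono _ _ (posDiff hP hcof0 hcp h1) fun b _ hb => ⟨?_, hb.1.2⟩
    by_contra hb'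
    exact hb.2 ⟨hb.1.1, hb'⟩
  obtain ⟨b, -, hb⟩ := hP.ne _ hcp
  exact hc1N hb.2 c hcA hb.1

end Pool.Agent.H63.HDA.CVR
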