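import Pool.Agent.H7.HD.Targets11
import Pool.Agent.H3.HD.DM

/-!
# (LI) limits of measures (MP_e37c09_lc)
-/

open Ordinal Cardinal Order Set
open scoped ZFSet

universe u

namespace Pool.Agent.H63.HDA.LI

open _root_.HD
open Pool.Agent.H3.HD.DM (HMZ hmeas_iff dz_HMZ dz_hod)

/-! ## Definability -/

/-- the graph of `b ↦ en (c b)` is definable -/
theorem dzc {en : Ordinal.{u} → ZFSet.{u}} (hen : EN en) {c : Ordinal.{u} → Ordinal.{u}}
    (hc : DR fun a b => b = c a) : ∃ S : ZFSet.{u} → ZFSet.{u} → Prop,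
      (∀ i j : ℕ, DZ fun v => S (v i) (v j)) ∧
      ∀ (b : Ordinal.{u}) (x : ZFSet.{u}), S b.toZFSet x ↔ x = en (c b) := by
  obtain ⟨Q, hQ, h⟩ := hc
  refine ⟨fun s x => ∃ y : ZFSet.{u}, (y.IsOrdinal ∧ x = en y.rank) ∧
    Q (fun n => if n = 0 then s else y), fun i j => ?_, fun b x => ?_⟩
  · refine DZ.ex (R := fun y v => (y.IsOrdinal ∧ v j = en y.rank) ∧
      Q (fun n => if n = 0 then v i else y)) (DZ.and ?_ ?_)
    · exact hen.dz.ren fun n => if n = 0 then 0 else j + 1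
    · refine (hQ.ren fun n => if n = 0 then i + 1 else 0).congr fun v => ?_
      have : (fun n => if n = 0 then v (i + 1) else v 0) =
          fun n => v (if n = 0 then i + 1 else 0) := by
        funext n
        by_cases hn : n = 0 <;> simp [hn]
      rw [← this]
  · have key : ∀ y : Ordinal.{u}, Q (fun n => if n = 0 then b.toZFSet else y.toZFSet) ↔
        y = c b := by
      intro y
      have h1 := h (fun n => if n = 0 then b else y)
      have h2 : ov (fun n => if n = 0 then b else y) =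
          fun n => if n = 0 then b.toZFSet else y.toZFSet := by
        funext n
        by_cases hn : n = 0 <;> simp [ov, hn]
      rw [h2] at h1
      exact h1.symm
    constructor
    · rintro ⟨y, ⟨h1, h2⟩, h3⟩
      have h4 : y.rank.toZFSet = y := h1.toZFSet_rank_eq
      rw [← h4] at h3
      rw [h2, (key y.rank).1 h3]
    · rintro rfl
      exact ⟨(c b).toZFSet, ⟨ZFSet.isOrdinal_toZFSet _, by rw [rank_toZFSet]⟩, (key _).2 rfl⟩

theorem doN (hHMI : T_HMI.{u}) {en : Ordinal.{u} → ZFSet.{u}} (hen : EN en)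
    {c : Ordinal.{u} → Ordinal.{u}} (hc : DR fun a b => b = c a) (i j : ℕ) :
    DO fun w => NMe (w i) (en (c (w j))) := by
  obtain ⟨S, hS, hS'⟩ := dzc hen hc
  have h1 : DZ fun v => ∃ x, S (v j) x ∧ HMZ (v i) x :=
    DZ.ex (R := fun x v => S (v j) x ∧ HMZ (v i) x) ((hS (j + 1) 0).and (dz_HMZ (i + 1) 0))
  refine h1.do.congr fun w => ?_
  rw [← hHMI, hmeas_iff]
  constructor
  · intro h
    exact ⟨_, (hS' _ _).2 rfl, h⟩
  · rintro ⟨x, hx, h⟩
    rw [(hS' _ _).1 hx] at h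
    exact h

theorem doA {en : Ordinal.{u} → ZFSet.{u}} (hen : EN en)
    {c : Ordinal.{u} → Ordinal.{u}} (hc : DR fun a b => b = c a)
    {X : Ordinal.{u} → (ℕ → Ordinal.{u}) → Prop} (hX : DO fun w => X (w 0) (fun n => w (n + 1)))
    (i j : ℕ) : DO fun w => os (w i) {a | X a w} ∈ en (c (w j)) := by
  obtain ⟨S, hS, hS'⟩ := dzc hen hc
  have h1 := DO.setArg (R := fun s v => ∃ x, S (v j) x ∧ s ∈ x)
    (DZ.ex (R := fun x v => S (v (j + 1)) x ∧ v 0 ∈ x) ((hS (j + 2) 0).and (DZ.mem 1 0))) hX i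
  refine h1.congr fun w => ?_
  constructor
  · intro h
    exact ⟨_, (hS' _ _).2 rfl, h⟩
  · rintro ⟨x, hx, h⟩
    rw [(hS' _ _).1 hx] at h
    exact h

theorem dsN (hHMI : T_HMI.{u}) {en : Ordinal.{u} → ZFSet.{u}} (hen : EN en)
    {c : Ordinal.{u} → Ordinal.{u}} (hc : DR fun a b => b = c a) :
    DS {b | NMe b (en (c b))} := doN hHMI hen hc 0 0

theorem dsA {en : Ordinal.{u} → ZFSet.{u}} (hen : EN en)
    {c : Ordinal.{u} → Ordinal.{u}} (hc : DR fun a b => b = c a)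
    {X : Set Ordinal.{u}} (hX : DS X) : DS {b | os b X ∈ en (c b)} :=
  doA hen hc (X := fun a _ => a ∈ X) hX 0 0

/-! ## Elementary facts -/

theorem os_inter {κ b : Ordinal.{u}} (hb : b < κ) (X : Set Ordinal.{u}) :
    os κ X ∩ b.toZFSet = os b X := by
  ext z
  rw [ZFSet.mem_inter, mem_os, mem_os]
  constructor
  · rintro ⟨⟨a, -, h, rfl⟩, h2⟩
    exact ⟨a, toZFSet_mem_toZFSet_iff.1 h2, h, rfl⟩
  · rintro ⟨a, ha, h, rfl⟩
    exact ⟨⟨a, ha.trans hb, h, rfl⟩, toZFSet_mem_toZFSet_iff.2 ha⟩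

theorem os_congr {κ : Ordinal.{u}} {X Y : Set Ordinal.{u}} (h : ∀ b < κ, (b ∈ X ↔ b ∈ Y)) :
    os κ X = os κ Y := by
  ext z
  rw [mem_os, mem_os]
  exact ⟨fun ⟨a, ha, h1, h2⟩ => ⟨a, ha, (h a ha).1 h1, h2⟩,
    fun ⟨a, ha, h1, h2⟩ => ⟨a, ha, (h a ha).2 h1, h2⟩⟩

theorem os_sub (κ : Ordinal.{u}) (X : Set Ordinal.{u}) : os κ X ⊆ κ.toZFSet := by
  intro z hz
  obtain ⟨a, ha, -, rfl⟩ := mem_os.1 hz
  exact toZFSet_mem_toZFSet_iff.2 ha

theorem eq_os {κ : Ordinal.{u}} {x : ZFSet.{u}} (hx : x ⊆ κ.toZFSet) :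
    x = os κ {a | a.toZFSet ∈ x} := by
  ext z
  rw [mem_os]
  constructor
  · intro hz
    obtain ⟨a, ha, rfl⟩ := mem_toZFSet_iff.1 (hx hz)
    exact ⟨a, ha, hz, rfl⟩
  · rintro ⟨a, -, h, rfl⟩
    exact h

/-- `W` contains `os κ Z` if it contains `os κ Y`, `os κ N`, and `Y ∩ N ⊆ Z` below `κ` -/
theorem upN {κ : Ordinal.{u}} {W : ZFSet.{u}} (hW : NMe κ W) {N Y Z : Set Ordinal.{u}}
    (dN : DS N) (dY : DS Y) (dZ : DS Z) (hN : os κ N ∈ W) (hY : os κ Y ∈ W)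
    (h : ∀ b < κ, b ∈ N → b ∈ Y → b ∈ Z) : os κ Z ∈ W :=
  hW.up (Y ∩ N) Z (dY.and dN) dZ (hW.int Y N dY dN hY hN) fun b hb hb' => h b hb hb'.2 hb'.1

/-! ## Third claim -/

theorem mem_lmz {en : Ordinal.{u} → ZFSet.{u}} {c : Ordinal.{u} → Ordinal.{u}}
    {κ : Ordinal.{u}} {W : ZFSet.{u}} {X : Set Ordinal.{u}} (hX : DS X) :
    os κ X ∈ lmz en c κ W ↔ os κ {b | os b X ∈ en (c b)} ∈ W := by
  unfold lmz
  rw [ZFSet.mem_sep, ZFSet.mem_powerset]
  have e : os κ {b | os κ X ∩ b.toZFSet ∈ en (c b)} = os κ {b | os b X ∈ en (c b)} :=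
    os_congr fun b hb => by
      show os κ X ∩ b.toZFSet ∈ en (c b) ↔ os b X ∈ en (c b)
      rw [os_inter hb]
  rw [e]
  exact ⟨fun h => h.2.2, fun h => ⟨os_sub κ X, hod_os hX κ, h⟩⟩

theorem od_lmz {en : Ordinal.{u} → ZFSet.{u}} (hen : EN en) {c : Ordinal.{u} → Ordinal.{u}}
    (hc : DR fun a b => b = c a) {κ : Ordinal.{u}} {W : ZFSet.{u}} (hW : OD W) :
    OD (lmz en c κ W) := by
  obtain ⟨S, hS, hS'⟩ := dzc hen hc
  refine OD.of_mem (P := fun v => v 0 ⊆ κ.toZFSet ∧ HOD (v 0) ∧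
    ∃ z ∈ W, ∀ b, b ∈ z ↔ b ∈ κ.toZFSet ∧ ∃ x, S b x ∧ ∃ t ∈ x, ∀ d, d ∈ t ↔ d ∈ v 0 ∧ d ∈ b)
    ?_ fun v => ?_
  · refine DZ.od (R := fun k v => v 0 ⊆ k ∧ HOD (v 0) ∧
      ∃ z ∈ W, ∀ b, b ∈ z ↔ b ∈ k ∧ ∃ x, S b x ∧ ∃ t ∈ x, ∀ d, d ∈ t ↔ d ∈ v 0 ∧ d ∈ b)
      (OD.ordinal κ) ?_
    refine DZ.od (R := fun W v => v 1 ⊆ v 0 ∧ HOD (v 1) ∧
      ∃ z ∈ W, ∀ b, b ∈ z ↔ b ∈ v 0 ∧ ∃ x, S b x ∧ ∃ t ∈ x, ∀ d, d ∈ t ↔ d ∈ v 1 ∧ d ∈ b)
      hW ?_
    refine DZ.and (Loc.sub 2 1).dz (DZ.and (dz_hod 2) ?_)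
    refine DZ.exMem 0 (DZ.all (DZ.iff (DZ.mem 0 1) (DZ.and (DZ.mem 0 3) (DZ.ex (DZ.and (hS 1 0)
      (DZ.exMem 0 (DZ.all (DZ.iff (DZ.mem 0 1) (DZ.and (DZ.mem 0 _) (DZ.mem 0 _))))))))))
  · unfold lmz
    rw [ZFSet.mem_sep, ZFSet.mem_powerset]
    refine and_congr_right fun _ => and_congr_right fun _ => ?_
    have key : ∀ b, b < κ → ((∃ x, S b.toZFSet x ∧ ∃ t ∈ x, ∀ d, d ∈ t ↔ d ∈ v 0 ∧
        d ∈ b.toZFSet) ↔ v 0 ∩ b.toZFSet ∈ en (c b)) := by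
      intro b _
      constructor
      · rintro ⟨x, hx, t, ht, h⟩
        rw [(hS' b x).1 hx] at ht
        have : v 0 ∩ b.toZFSet = t := by
          ext d
          rw [ZFSet.mem_inter, h]
        rwa [this]
      · intro h
        exact ⟨_, (hS' b _).2 rfl, _, h, fun d => ZFSet.mem_inter⟩
    constructor
    · rintro ⟨z, hz, h⟩
      have : os κ {b | v 0 ∩ b.toZFSet ∈ en (c b)} = z := by
        ext d
        rw [mem_os, h]
        constructor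
        · rintro ⟨b, hb, h1, rfl⟩
          exact ⟨toZFSet_mem_toZFSet_iff.2 hb, (key b hb).2 h1⟩
        · rintro ⟨h1, h2⟩
          obtain ⟨b, hb, rfl⟩ := mem_toZFSet_iff.1 h1
          exact ⟨b, hb, (key b hb).1 h2, rfl⟩
      rwa [this]
    · intro h
      refine ⟨_, h, fun d => ?_⟩
      rw [mem_os]
      constructor
      · rintro ⟨b, hb, h1, rfl⟩
        exact ⟨toZFSet_mem_toZFSet_iff.2 hb, (key b hb).2 h1⟩
      · rintro ⟨h1, h2⟩
        obtain ⟨b, hb, rfl⟩ := mem_toZFSet_iff.1 h1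
        exact ⟨b, hb, (key b hb).1 h2, rfl⟩

/-! ## The limit is a normal measure -/

theorem nme_lmz (hHMI : T_HMI.{u}) {en : Ordinal.{u} → ZFSet.{u}} (hen : EN en)
    {c : Ordinal.{u} → Ordinal.{u}} (hc : DR fun a b => b = c a) {κ : Ordinal.{u}}
    {W : ZFSet.{u}} (hW : NMe κ W) (hN : os κ {b | NMe b (en (c b))} ∈ W) :
    NMe κ (lmz en c κ W) := by
  have dN := dsN hHMI hen hc
  have dA : ∀ {X : Set Ordinal.{u}}, DS X → DS {b | os b X ∈ en (c b)} := fun hX => dsA hen hc hX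
  refine ⟨hW.lim, ?_, ?_, ?_, ?_, ?_, ?_, ?_⟩
  · refine hod_iff.2 ⟨od_lmz hen hc hW.hod.od, fun y hy => ?_⟩
    exact (ZFSet.mem_sep.1 hy).2.1
  · intro x hx
    exact ZFSet.mem_powerset.1 (ZFSet.mem_sep.1 hx).1
  · intro X hX
    rw [mem_lmz hX, mem_lmz (X := Xᶜ) hX.not, hW.ult _ (dA hX)]
    refine not_congr ⟨fun h => ?_, fun h => ?_⟩
    · refine upN hW (Y := {b | os b X ∈ en (c b)}ᶜ) dN (dA hX).not (dA (X := Xᶜ) hX.not) hN h
        fun b _ hbN hb => ?_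
      by_contra hb'
      exact hb ((hbN.ult X hX).2 hb')
    · refine upN hW (Z := {b | os b X ∈ en (c b)}ᶜ) dN (dA (X := Xᶜ) hX.not) (dA hX).not hN h
        fun b _ hbN hb hb' => ?_
      exact (hbN.ult X hX).1 hb' hb
  · intro X Y hX hY h1 h2
    rw [mem_lmz hX] at h1
    rw [mem_lmz hY]
    exact upN hW dN (dA hX) (dA hY) hN h1 fun b hb hbN hb' =>
      hbN.up X Y hX hY hb' fun a ha => h2 a (ha.trans hb)
  · intro X Y hX hY h1 h2
    rw [mem_lmz hX] at h1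
    rw [mem_lmz hY] at h2
    rw [mem_lmz (X := X ∩ Y) (hX.and hY)]
    refine upN hW (Y := {b | os b X ∈ en (c b)} ∩ {b | os b Y ∈ en (c b)}) dN
      ((dA hX).and (dA hY)) (dA (X := X ∩ Y) (hX.and hY)) hN
      (hW.int _ _ (dA hX) (dA hY) h1 h2) fun b hb hbN hb' => ?_
    exact hbN.int X Y hX hY hb'.1 hb'.2
  · intro a ha
    have da : DS {b : Ordinal.{u} | a < b} := DO.gtc 0 a
    rw [mem_lmz da]
    exact upN hW dN da (dA da) hN (hW.gt a ha) fun b hb hbN hab => hbN.gt a hab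
  · intro R hR h1
    have dR1 : ∀ a, DS {b | R a b} := fun a => DO.sect1 hR a
    have dR2 : DS {b | ∀ a < b, R a b} := DO.allLt (R := fun a w => R a (w 0)) 0 (hR.s2 0 1)
    rw [mem_lmz dR2]
    have dR3 : DR fun a b => os b {x | R a x} ∈ en (c b) :=
      doA hen hc (X := fun x w => R (w 0) x) (hR.s2 1 0) 1 1
    have h2 := hW.nrm (fun a b => os b {x | R a x} ∈ en (c b)) dR3 fun a ha => by
      have := h1 a ha
      rwa [mem_lmz (dR1 a)] at this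
    refine upN hW (Y := {b | ∀ a < b, os b {x | R a x} ∈ en (c b)}) dN (DO.allLt (R := fun a w => os (w 0) {x | R a x} ∈ en (c (w 0))) 0
      (dR3.s2 (X := fun a b => os b {x | R a x} ∈ en (c b)) 0 1)) (dA dR2) hN h2
      fun b hb hbN hb' => hbN.nrm R hR fun a ha => hb' a ha

/-! ## The limit is below `W` -/

theorem not_hm_empty {b : Ordinal.{u}} : ¬ HMeas b (∅ : ZFSet.{u}) := by
  intro h
  have h1 := h.ultra ∅ (hod_iff.2 ⟨OD.of_dz (DZ.congr (P := fun v => v 0 = ∅)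
    (loc_empty 0).dz fun _ => Iff.rfl), fun y hy => absurd hy (ZFSet.notMem_empty y)⟩)
    (ZFSet.empty_subset _)
  exact ZFSet.notMem_empty _ (h1.2 (ZFSet.notMem_empty _))

theorem hod_empty : HOD (∅ : ZFSet.{u}) :=
  hod_iff.2 ⟨OD.of_dz (DZ.congr (P := fun v => v 0 = ∅)
    (loc_empty 0).dz fun _ => Iff.rfl), fun y hy => absurd hy (ZFSet.notMem_empty y)⟩

open Classical in
theorem mlt_lmz (hHMI : T_HMI.{u}) {en : Ordinal.{u} → ZFSet.{u}} (hen : EN en)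
    {c : Ordinal.{u} → Ordinal.{u}} (hc : DR fun a b => b = c a) {κ : Ordinal.{u}}
    {W : ZFSet.{u}} (hW : NMe κ W) (hN : os κ {b | NMe b (en (c b))} ∈ W) :
    MLt κ (lmz en c κ W) W := by
  have dN := dsN hHMI hen hc
  obtain ⟨S, hS, hS'⟩ := dzc hen hc
  let m : Ordinal.{u} → ZFSet.{u} := fun b => if NMe b (en (c b)) then en (c b) else ∅
  have hmN : ∀ b, NMe b (en (c b)) → m b = en (c b) := fun b hb => if_pos hb
  have hmN' : ∀ b, ¬ NMe b (en (c b)) → m b = ∅ := fun b hb => if_neg hb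
  let y : ZFSet.{u} := ZFSet.powerset (ZFSet.powerset κ.toZFSet)
  have hmy : ∀ b < κ, m b ∈ y := by
    intro b hb
    rw [ZFSet.mem_powerset]
    intro x hx
    rw [ZFSet.mem_powerset]
    by_cases hbN : NMe b (en (c b))
    · rw [hmN b hbN] at hx
      refine (hbN.sub x hx).trans fun z hz => ?_
      obtain ⟨a, ha, rfl⟩ := mem_toZFSet_iff.1 hz
      exact toZFSet_mem_toZFSet_iff.2 (ha.trans hb)
    · rw [hmN' b hbN] at hx
      exact absurd hx (ZFSet.notMem_empty x)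
  let f : ZFSet.{u} := ZFSet.sep (fun p => ∃ b < κ, p = ZFSet.pair b.toZFSet (m b))
    (ZFSet.prod κ.toZFSet y)
  have hf : ∀ p, p ∈ f ↔ ∃ b < κ, p = ZFSet.pair b.toZFSet (m b) := by
    intro p
    show p ∈ ZFSet.sep _ _ ↔ _
    rw [ZFSet.mem_sep]
    refine ⟨fun h => h.2, fun h => ⟨?_, h⟩⟩
    obtain ⟨b, hb, rfl⟩ := h
    rw [ZFSet.pair_mem_prod]
    exact ⟨toZFSet_mem_toZFSet_iff.2 hb, hmy b hb⟩
  have hfp : ∀ b < κ, ∀ w, ZFSet.pair b.toZFSet w ∈ f ↔ w = m b := by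
    intro b hb w
    rw [hf]
    constructor
    · rintro ⟨b', hb', he⟩
      obtain ⟨h1, h2⟩ := ZFSet.pair_injective he
      have := toZFSet_injective h1
      subst this
      exact h2
    · rintro rfl
      exact ⟨b, hb, rfl⟩
  have hmod : ∀ b, HOD (m b) := by
    intro b
    by_cases hbN : NMe b (en (c b))
    · rw [hmN b hbN]
      exact hbN.hod
    · rw [hmN' b hbN]
      exact hod_empty
  have hfod : OD f := by
    refine OD.of_mem (P := fun v => ∃ b ∈ κ.toZFSet, ∃ z, v 0 = ZFSet.pair b z ∧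
      ((S b z ∧ HMZ b z) ∨ ((∀ x, S b x → ¬ HMZ b x) ∧ z = ∅))) ?_ fun v => ?_
    · refine DZ.od (R := fun k v => ∃ b ∈ k, ∃ z, v 0 = ZFSet.pair b z ∧
        ((S b z ∧ HMZ b z) ∨ ((∀ x, S b x → ¬ HMZ b x) ∧ z = ∅))) (OD.ordinal κ) ?_
      refine DZ.exMem 0 (DZ.ex (DZ.and (loc_pair _ _ _).dz (DZ.or (DZ.and (hS 1 0) (dz_HMZ 1 0))
        (DZ.and (DZ.all (DZ.imp (hS 2 0) (dz_HMZ 2 0).not)) (loc_empty 0).dz))))
    · rw [hf]
      constructor
      · rintro ⟨b, hb, z, he, h⟩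
        obtain ⟨b, hb', rfl⟩ := mem_toZFSet_iff.1 hb
        refine ⟨b, hb', ?_⟩
        rw [he]
        rcases h with ⟨h1, h2⟩ | ⟨h1, h2⟩
        · rw [(hS' b z).1 h1] at h2 ⊢
          rw [hmN b ((hHMI _ _).1 (hmeas_iff.2 h2))]
        · rw [hmN' b fun h3 => h1 _ ((hS' b _).2 rfl) (hmeas_iff.1 ((hHMI _ _).2 h3)), h2]
      · rintro ⟨b, hb, he⟩
        refine ⟨_, toZFSet_mem_toZFSet_iff.2 hb, m b, he, ?_⟩
        by_cases hbN : NMe b (en (c b))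
        · left
          rw [hmN b hbN]
          exact ⟨(hS' b _).2 rfl, hmeas_iff.1 ((hHMI _ _).2 hbN)⟩
        · right
          refine ⟨fun x hx hx' => hbN ?_, hmN' b hbN⟩
          rw [(hS' b x).1 hx] at hx'
          exact (hHMI _ _).1 (hmeas_iff.2 hx')
  refine ⟨f, y, hod_iff.2 ⟨hfod, fun p hp => ?_⟩, ⟨fun p hp => (ZFSet.mem_sep.1 hp).1,
    fun z hz => ?_⟩, ?_, ?_⟩
  · obtain ⟨b, -, rfl⟩ := (hf p).1 hp
    exact (HOD.ordinal b).pair (hmod b)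
  · obtain ⟨b, hb, rfl⟩ := mem_toZFSet_iff.1 hz
    exact ⟨m b, (hfp b hb _).2 rfl, fun w hw => (hfp b hb w).1 hw⟩
  · have : ZFSet.sep (fun b => ∃ w, ZFSet.pair b w ∈ f ∧ HMeas b.rank w) κ.toZFSet =
        os κ {b | NMe b (en (c b))} := by
      ext z
      rw [ZFSet.mem_sep, mem_os]
      constructor
      · rintro ⟨h1, w, hw, h2⟩
        obtain ⟨b, hb, rfl⟩ := mem_toZFSet_iff.1 h1
        rw [rank_toZFSet, (hfp b hb w).1 hw] at h2
        refine ⟨b, hb, ?_, rfl⟩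
        by_contra hbN
        rw [hmN' b hbN] at h2
        exact not_hm_empty h2
      · rintro ⟨b, hb, h1, rfl⟩
        refine ⟨toZFSet_mem_toZFSet_iff.2 hb, m b, (hfp b hb _).2 rfl, ?_⟩
        rw [rank_toZFSet, hmN b h1]
        exact (hHMI _ _).2 h1
    rw [this]
    exact hN
  · intro x hx hxκ
    have dX : DS {a | a.toZFSet ∈ x} := hx.od.ds
    have hxe := eq_os hxκ
    have h1 : ZFSet.sep (fun b => ∃ w, ZFSet.pair b w ∈ f ∧ x ∩ b ∈ w) κ.toZFSet =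
        os κ ({b | os b {a | a.toZFSet ∈ x} ∈ en (c b)} ∩ {b | NMe b (en (c b))}) := by
      ext z
      rw [ZFSet.mem_sep, mem_os]
      constructor
      · rintro ⟨h1, w, hw, h2⟩
        obtain ⟨b, hb, rfl⟩ := mem_toZFSet_iff.1 h1
        rw [(hfp b hb w).1 hw] at h2
        by_cases hbN : NMe b (en (c b))
        · rw [hmN b hbN, hxe, os_inter hb] at h2
          exact ⟨b, hb, ⟨h2, hbN⟩, rfl⟩
        · rw [hmN' b hbN] at h2
          exact absurd h2 (ZFSet.notMem_empty _)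
      · rintro ⟨b, hb, ⟨h1, h2⟩, rfl⟩
        refine ⟨toZFSet_mem_toZFSet_iff.2 hb, m b, (hfp b hb _).2 rfl, ?_⟩
        rw [hmN b h2]
        have h3 : x ∩ b.toZFSet = os b {a | a.toZFSet ∈ x} := by
          conv_lhs => rw [hxe]
          exact os_inter hb _
        rw [h3]
        exact h1
    rw [h1]
    conv_lhs => rw [hxe]
    rw [mem_lmz dX]
    constructor
    · intro h
      exact hW.int _ _ (dsA hen hc dX) dN h hN
    · intro h
      exact hW.up ({b | os b {a | a.toZFSet ∈ x} ∈ en (c b)} ∩ {b | NMe b (en (c b))}) _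
        ((dsA hen hc dX).and dN) (dsA hen hc dX) h fun b _ hb => hb.1

theorem X (hHMI : T_HMI.{u}) : T_LI.{u} := by
  intro en hen c hc κ W hW hN
  exact ⟨nme_lmz hHMI hen hc hW hN, mlt_lmz hHMI hen hc hW hN, fun X hX => mem_lmz hX⟩

end Pool.Agent.H63.HDA.LI
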