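import Pool.Agent.H7.HD.Targets11
import Pool.Agent.H7.HD.All
import Pool.Agent.H63.HDA.LI

/-!
# (UP) measures of large Mitchell rank below a given measure (MP_e37c09_lc)
-/

open Ordinal Cardinal Order Set
open scoped ZFSet

universe u

namespace Pool.Agent.H63.HDA.UP

open _root_.HD
open Pool.Agent.H63.HDA.LI (dsN dsA upN)

/-- definability of the Mitchell rank with codes -/
theorem doM (hDG : T_DG.{u}) (hRK : T_RK.{u}) {en : Ordinal.{u} → ZFSet.{u}} (hen : EN en)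
    {π : Ordinal.{u} → Ordinal.{u}} (hπ : DR fun a b => b = π a) (a : Ordinal.{u}) (i k : ℕ) :
    DO fun w => MGe (w i) (Rk π (w i) a) (en (w k)) := by
  have h1 := hDG en hen
  have h2 := ((hRK π).2.1 hπ).1
  refine DO.sub a (R := fun a w => MGe (w i) (Rk π (w i) a) (en (w k))) ?_
  refine (DO.ex (R := fun r w => r = Rk π (w (i + 1)) (w 0) ∧ MGe (w (i + 1)) r (en (w (k + 1))))
    (DO.and ?_ ?_)).congr fun w => ?_
  · exact h2.s3 (X := fun x y z => z = Rk π x y) (i + 2) 1 0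
  · exact h1.s3 (X := fun x y z => MGe x y (en z)) (i + 2) 0 (k + 2)
  · constructor
    · intro h
      exact ⟨_, rfl, h⟩
    · rintro ⟨r, rfl, h⟩
      exact h

theorem doMc (hDG : T_DG.{u}) (hRK : T_RK.{u}) {en : Ordinal.{u} → ZFSet.{u}} (hen : EN en)
    {π : Ordinal.{u} → Ordinal.{u}} (hπ : DR fun a b => b = π a) (a : Ordinal.{u})
    {c : Ordinal.{u} → Ordinal.{u}} (hc : DR fun a b => b = c a) :
    DS {b | MGe b (Rk π b a) (en (c b))} := by
  refine DO.congr (DO.ex (R := fun z w => z = c (w 0) ∧ MGe (w 0) (Rk π (w 0) a) (en z))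
    (DO.and (hc.s2 (X := fun a b => b = c a) 1 0) (doM hDG hRK hen hπ a 1 0))) fun w => ?_
  constructor
  · intro h
    exact ⟨_, rfl, h⟩
  · rintro ⟨z, rfl, h⟩
    exact h

theorem mge_code {en : Ordinal.{u} → ZFSet.{u}} (hen : EN en) {b r : Ordinal.{u}} :
    (∃ U, MGe b r U) ↔ ∃ z, MGe b r (en z) := by
  constructor
  · rintro ⟨U, hU⟩
    have h1 : HMeas b U := by
      rw [MGe] at hU
      exact hU.1
    obtain ⟨z, rfl⟩ := (hen.od U).1 h1.hod.od
    exact ⟨z, hU⟩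
  · rintro ⟨z, hz⟩
    exact ⟨_, hz⟩

theorem dsE (hDG : T_DG.{u}) (hRK : T_RK.{u}) {en : Ordinal.{u} → ZFSet.{u}} (hen : EN en)
    {π : Ordinal.{u} → Ordinal.{u}} (hπ : DR fun a b => b = π a) (a : Ordinal.{u}) :
    DS {b | ∃ U, MGe b (Rk π b a) U} := by
  refine DO.congr (DO.ex (R := fun z w => MGe (w 0) (Rk π (w 0) a) (en z))
    (doM hDG hRK hen hπ a 1 0)) fun w => ?_
  exact mge_code hen

/-- the least code of a measure of rank at least `Rk π b a` -/
noncomputable def cd (en : Ordinal.{u} → ZFSet.{u}) (π : Ordinal.{u} → Ordinal.{u})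
    (a b : Ordinal.{u}) : Ordinal.{u} := sInf {z | MGe b (Rk π b a) (en z)}

theorem cd_spec {en : Ordinal.{u} → ZFSet.{u}} (hen : EN en) {π : Ordinal.{u} → Ordinal.{u}}
    {a b : Ordinal.{u}} (h : ∃ U, MGe b (Rk π b a) U) : MGe b (Rk π b a) (en (cd en π a b)) :=
  csInf_mem (s := {z | MGe b (Rk π b a) (en z)}) ((mge_code hen).1 h)

theorem dr_cd (hDG : T_DG.{u}) (hRK : T_RK.{u}) {en : Ordinal.{u} → ZFSet.{u}} (hen : EN en)
    {π : Ordinal.{u} → Ordinal.{u}} (hπ : DR fun a b => b = π a) (a : Ordinal.{u}) :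
    DR fun b y => y = cd en π a b := by
  refine DO.congr (A := fun w => (MGe (w 0) (Rk π (w 0) a) (en (w 1)) ∧
    ∀ z < w 1, ¬ MGe (w 0) (Rk π (w 0) a) (en z)) ∨
    ((∀ z, ¬ MGe (w 0) (Rk π (w 0) a) (en z)) ∧ w 1 = 0)) ?_ fun w => ?_
  · refine DO.or (DO.and (doM hDG hRK hen hπ a 0 1)
      (DO.allLt (R := fun z w => ¬ MGe (w 0) (Rk π (w 0) a) (en z)) 1
        (doM hDG hRK hen hπ a 1 0).not)) (DO.and
      (DO.all (R := fun z w => ¬ MGe (w 0) (Rk π (w 0) a) (en z)) (doM hDG hRK hen hπ a 1 0).not)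
      (DO.eqc 1 0))
  · constructor
    · intro h
      by_cases hne : ∃ z, MGe (w 0) (Rk π (w 0) a) (en z)
      · left
        have h1 := csInf_mem (s := {z | MGe (w 0) (Rk π (w 0) a) (en z)}) hne
        rw [h]
        refine ⟨h1, fun z hz hz' => ?_⟩
        exact absurd hz (not_lt.2 (csInf_le' (s := {z | MGe (w 0) (Rk π (w 0) a) (en z)}) hz'))
      · right
        push Not at hne
        refine ⟨hne, ?_⟩
        rw [h]
        have : {z | MGe (w 0) (Rk π (w 0) a) (en z)} = ∅ := by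
          ext z
          exact ⟨fun h => hne z h, fun h => absurd h (Set.notMem_empty z)⟩
        show sInf {z | MGe (w 0) (Rk π (w 0) a) (en z)} = 0
        rw [this, Ordinal.sInf_empty]
    · rintro (⟨h1, h2⟩ | ⟨h1, h2⟩)
      · apply le_antisymm
        · by_contra hlt
          push Not at hlt
          exact h2 _ hlt (csInf_mem (s := {z | MGe (w 0) (Rk π (w 0) a) (en z)}) ⟨_, h1⟩)
        · exact csInf_le' (s := {z | MGe (w 0) (Rk π (w 0) a) (en z)}) h1
      · have : {z | MGe (w 0) (Rk π (w 0) a) (en z)} = ∅ := by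
          ext z
          exact ⟨fun h => h1 z h, fun h => absurd h (Set.notMem_empty z)⟩
        show w 1 = sInf {z | MGe (w 0) (Rk π (w 0) a) (en z)}
        rw [this, Ordinal.sInf_empty, h2]

theorem X (hHMI : T_HMI.{u}) (hLI : T_LI.{u}) (hMLC : T_MLC.{u}) (hDG : T_DG.{u})
    (hRK : T_RK.{u}) (hDN : T_DN.{u}) : T_UP.{u} := by
  obtain ⟨en, hen⟩ := All.en.{u}
  intro π hπ a
  induction a using WellFoundedLT.induction with
  | ind a ih =>
    intro κ W hW hB
    set c : Ordinal.{u} → Ordinal.{u} := cd en π a with hcdef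
    have hc : DR fun a b => b = c a := dr_cd hDG hRK hen hπ a
    have dB := doMc hDG hRK hen hπ a hc
    have dN := dsN hHMI hen hc
    have hBN : ∀ b, MGe b (Rk π b a) (en (c b)) → NMe b (en (c b)) := by
      intro b hb
      rw [MGe] at hb
      exact (hHMI _ _).1 hb.1
    have hB' : os κ {b | MGe b (Rk π b a) (en (c b))} ∈ W :=
      hW.up _ _ (dsE hDG hRK hen hπ a) dB hB fun b _ hb => cd_spec hen hb
    have hN : os κ {b | NMe b (en (c b))} ∈ W := hW.up _ _ dB dN hB' fun b _ hb => hBN b hb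
    obtain ⟨h1, h2, h3⟩ := hLI en hen c hc κ W hW hN
    refine ⟨lmz en c κ W, ?_, h2⟩
    rw [MGe]
    refine ⟨(hHMI _ _).2 h1, fun ζ => ?_⟩
    obtain ⟨j, hj, hja, hζ⟩ := ((hRK π).1 κ a ζ.1).1 ζ.2
    have dY := dsE hDG hRK hen hπ (π j)
    have hY : os κ {x | ∃ U, MGe x (Rk π x (π j)) U} ∈ lmz en c κ W := by
      rw [h3 _ dY]
      refine upN hW dB (Y := {b | j < b}) (DO.gtc 0 j) (dsA hen hc dY) hB' (hW.gt j hj)
        fun b hb hbB hjb => ?_
      have hbN := hBN b hbB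
      have h4 : MGe b (Rk π b a) (en (c b)) := hbB
      rw [MGe] at h4
      obtain ⟨U1, h5, h6⟩ := h4.2 ⟨Rk π b (π j), ((hRK π).1 b a _).2 ⟨j, hjb, hja, rfl⟩⟩
      obtain ⟨c', hc', h7, h8⟩ := hMLC en hen b U1 (en (c b)) hbN h6
      have h9 := hDN en hen π hπ (π j) b c' (en (c b)) U1 hc' hbN h7 h8 h5
      exact hbN.up _ _ (doMc hDG hRK hen hπ (π j) hc') dY h9 fun x _ hx => ⟨_, hx⟩
    obtain ⟨W'', h10, h11⟩ := ih (π j) hja κ _ h1 hY
    exact ⟨W'', by rw [hζ]; exact h10, h11⟩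

end Pool.Agent.H63.HDA.UP
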